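import Pool.Agent.Zk71.AX.Eq
import Pool.Agent.Zk71.ST.Main

/-!
# For a stable gap, and for almost every interaction, the ground energy decides Q2

Let `d ≥ 2`, `q ≥ 1`. Interactions are the Hermitian matrices `h` on `q × q` boxes, `H_L = ∑ τ_v(h)` on the
`L × L` torus, parametrised linearly by the real matrices `X`: `h = hermOf X = (X + Xᵀ) + i (X - Xᵀ)`.
A nonzero vector is NEAR the ground energy, up to `η`, if its energy is at most `E_0(L) + η L²`. The gap
of `hermOf X` is STABLE if for some `Δ, δ > 0` and all interactions whose parameters are within `δ` of `X`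
and all large `L` the lowest eigenvalue of `H_L` is simple and the others are larger by at least `Δ`.

For EVERY `X` with a stable gap, and for Lebesgue almost every `X` without any assumption on gaps,
uniqueness, degeneracy or convergence, there is `C` such that

(1) (Lipschitz dependence, rate of convergence) for `0 < δ ≤ 1` all translation invariant vectors near the
ground energy up to `δ²`, for any interactions `X₁`, `X₂` within `δ` of `X` and on any tori of sides at
least `C / δ²`, have reduced density matrices on `q × q` boxes at trace distance at most `C δ`. In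
particular the reduced density matrices of the translation invariant ground states converge as `L → ∞`,
with error `O(L^(-1/2))`; so far only convergence at almost every interaction was known;

(2) (energy suffices) if on ONE torus of side `m ≥ (C/ε)²` SOME PEPS with arbitrary tensors (not
translation invariant) of bond dimension `f` is near the ground energy of some interaction within
`ε / C` of `X`, up to `(ε/C)²`, then ONE translation invariant tensor with bond dimension at most
`C (m/ε)² f⁴` has nonzero PEPS vectors on all tori of side at least `C (m/ε)²` and they are `ε`-close on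
boxes to ALL translation invariant vectors near the ground energy, up to `(ε/C)²`, of ALL
interactions within `ε / C` of `X`;

(3) the conclusion of (2) holds unconditionally with bond dimension `exp (C/ε)` on all tori of side at
least `(C/ε)⁴`;

(4) hence Q2 for the interaction `X` (and regions in the box), that is tensors with bond dimension
polynomial in `1/ε`, one for all sizes `L ≥ poly(1/ε)`, `ε`-close to all translation invariant ground
states, is EQUIVALENT to: for each `η` a PEPS with arbitrary tensors of bond dimension `poly(1/η)` has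
energy per site within `η` of the ground energy per site on some torus of side between `1/η` and
`poly(1/η)`.

Regions: larger finite regions are covered by regarding `h` as an interaction on larger boxes, if the
gap is stable against perturbations on these boxes too. For gapped Hamiltonians of this kind (3) is Q1
with `g = exp (C/ε)`, polynomial sizes and one tensor.

Proof. The ground energies per site `e_L` are concave functions of `X`; cutting boxes out of translation
invariant vectors and tiling by products gives `|e_L - e| ≤ C (1 + |X|) / L` for the limit `e`. A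
one-variable concave function is twice differentiable almost everywhere in the sense of
second differences (Lebesgue's theorem for its monotone derivative), so by Fubini's theorem
`2 e(X) - e(X + t u) - e(X - t u) ≤ K t²` for all coordinate directions `u` and almost every `X`;
for a stable gap this bound holds at every point since the variance of `V = ∑ τ_v(u)` in a ground state
with gap `Δ` is at most `⟨[V, [H, V]]⟩ / (2 Δ) = O(L²)`; concavity extends the lower bound to a ball. The expectations of a vector near the ground energy of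
`X₁` are an approximate supergradient of `e` at `X₁`, and two such supergradients within `δ` of `X` differ
by `O(δ)`. A PEPS near the ground energy so has the right averaged marginals in every direction, and the
duality, purification and translation averages of the starting files (ThermalPEPS, GlobalToLocal) turn
it into one translation invariant tensor.
-/

set_option autoImplicit false

open scoped BigOperators ComplexConjugate Classical Topology

noncomputable section

namespace Pool.Agent.Results.MP_0f69bf_mp.EnergyCriterion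

/-- Sites of the `L × L` torus. -/
abbrev Site (L : ℕ) := ZMod L × ZMod L

/-- Configurations (basis states) of the torus with local dimension `d`; vectors are functions
`Conf d L → ℂ`. -/
abbrev Conf (d L : ℕ) := Site L → Fin d

/-- Configurations of a `q × q` box. -/
abbrev BConf (d q : ℕ) := Fin q × Fin q → Fin d

/-- Squared norm of a vector. -/
def nrm {S : Type} [Fintype S] (f : S → ℂ) : ℝ := ∑ s, ‖f s‖ ^ 2

/-- The matrix `B` has operator norm at most `1`. -/
def Contr {S : Type} [Fintype S] (B : S → S → ℂ) : Prop :=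
  ∀ f : S → ℂ, nrm (fun σ => ∑ τ, B σ τ * f τ) ≤ nrm f

/-- The restriction of `s` to the `q × q` box with corner `v`. -/
def box {d L : ℕ} (q : ℕ) (s : Conf d L) (v : Site L) : BConf d q :=
  fun p => s (v.1 + ((p.1 : ℕ) : ZMod L), v.2 + ((p.2 : ℕ) : ZMod L))

/-- The configuration `s` with its content on the `q × q` box with corner `v` replaced by `τ`. -/
def put {d L q : ℕ} (s : Conf d L) (v : Site L) (τ : BConf d q) : Conf d L :=
  fun w => if h : (w.1 - v.1).val < q ∧ (w.2 - v.2).val < q then
    τ (⟨(w.1 - v.1).val, h.1⟩, ⟨(w.2 - v.2).val, h.2⟩) else s w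

/-- `⟨Ψ, B_v Ψ⟩`, the matrix `B` acting on the `q × q` box with corner `v`. -/
def expec {d L q : ℕ} [NeZero L] (Ψ : Conf d L → ℂ) (v : Site L)
    (B : BConf d q → BConf d q → ℂ) : ℂ :=
  ∑ s : Conf d L, ∑ τ : BConf d q, conj (Ψ s) * B (box q s v) τ * Ψ (put s v τ)

/-- The reduced density matrices on `q × q` boxes of the normalised vectors `Ψ`, `Ψ'` (on two
possibly different tori, at any positions) have trace distance at most `ε`: the expectations of all
matrices of norm at most `1` differ by at most `ε`. -/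
def Close {d L L' : ℕ} [NeZero L] [NeZero L'] (q : ℕ) (Ψ : Conf d L → ℂ) (Ψ' : Conf d L' → ℂ)
    (ε : ℝ) : Prop :=
  ∀ (u : Site L) (v : Site L') (B : BConf d q → BConf d q → ℂ), Contr B →
    ‖expec Ψ u B / (nrm Ψ : ℂ) - expec Ψ' v B / (nrm Ψ' : ℂ)‖ ≤ ε

/-- A PEPS tensor with physical dimension `d` and bond dimension `D`; indices: physical, left,
right, down, up. -/
abbrev Tensor (d D : ℕ) := Fin d → Fin D → Fin D → Fin D → Fin D → ℂ

/-- The translation invariant PEPS vector of the tensor `A` on the `L × L` torus. -/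
def peps {d D : ℕ} (A : Tensor d D) (L : ℕ) [NeZero L] : Conf d L → ℂ :=
  fun s => ∑ hor : Site L → Fin D, ∑ ver : Site L → Fin D,
    ∏ v : Site L, A (s v) (hor (v.1 - 1, v.2)) (hor v) (ver (v.1, v.2 - 1)) (ver v)

/-- The vector of the PEPS on the `m × m` torus with the tensor `P v` at the site `v`. -/
def pepsN {d f m : ℕ} [NeZero m] (P : Site m → Tensor d f) : Conf d m → ℂ :=
  fun s => ∑ hor : Site m → Fin f, ∑ ver : Site m → Fin f,
    ∏ v : Site m, P v (s v) (hor (v.1 - 1, v.2)) (hor v) (ver (v.1, v.2 - 1)) (ver v)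

/-- The vector `Ψ` is translation invariant up to scalars. -/
def TransInv {d L : ℕ} (Ψ : Conf d L → ℂ) : Prop :=
  ∀ a : Site L, ∃ c : ℂ, ∀ s : Conf d L, Ψ (fun w => s (w + a)) = c * Ψ s

/-- The Hamiltonian `H_L = ∑_v τ_v(h)` of an interaction `h` on `q × q` boxes. -/
def ham {d q : ℕ} (h : BConf d q → BConf d q → ℂ) (L : ℕ) [NeZero L] (Ψ : Conf d L → ℂ) :
    Conf d L → ℂ :=
  fun s => ∑ v : Site L, ∑ τ : BConf d q, h (box q s v) τ * Ψ (put s v τ)

/-- The Hermitian matrix `(X + Xᵀ) + i (X - Xᵀ)` of a real matrix `X`; a linear bijection between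
the real square matrices and the Hermitian matrices. -/
def hermOf {d q : ℕ} (X : BConf d q → BConf d q → ℝ) : BConf d q → BConf d q → ℂ :=
  fun σ τ => ((X σ τ + X τ σ : ℝ) : ℂ) + ((X σ τ - X τ σ : ℝ) : ℂ) * Complex.I

/-- The energy `⟨φ, H_L φ⟩`. -/
def en {d q : ℕ} (h : BConf d q → BConf d q → ℂ) (L : ℕ) [NeZero L] (φ : Conf d L → ℂ) : ℝ :=
  (∑ s, conj (φ s) * ham h L φ s).re

/-- `Ψ` is a normalised ground state: it minimises the energy among the unit vectors. -/
def IsGround {d q : ℕ} (h : BConf d q → BConf d q → ℂ) (L : ℕ) [NeZero L] (Ψ : Conf d L → ℂ) :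
    Prop :=
  nrm Ψ = 1 ∧ ∀ φ : Conf d L → ℂ, nrm φ = 1 → en h L Ψ ≤ en h L φ

/-- `Ψ` is nonzero and its energy per site (after normalisation) exceeds the ground energy per site
by at most `η`. -/
def Near {d q : ℕ} (h : BConf d q → BConf d q → ℂ) (L : ℕ) [NeZero L] (η : ℝ)
    (Ψ : Conf d L → ℂ) : Prop :=
  nrm Ψ ≠ 0 ∧ ∀ φ : Conf d L → ℂ, nrm φ = 1 → en h L Ψ ≤ (en h L φ + η * (L : ℝ) ^ 2) * nrm Ψ

/-- The ground energy per site is approximated within `η` by PEPS with arbitrary tensors of bond
dimension polynomial in `1 / η`, on one torus of side between `1 / η` and a polynomial in `1 / η`. -/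
def EnergyEff {d q : ℕ} (h : BConf d q → BConf d q → ℂ) : Prop :=
  ∃ N : ℕ, ∀ η : ℝ, 0 < η → η ≤ 1 → ∃ (m : ℕ) (_ : NeZero m) (f : ℕ) (P : Site m → Tensor d f),
    1 / η ≤ (m : ℝ) ∧ (m : ℝ) ≤ (2 / η) ^ N ∧ (f : ℝ) ≤ (2 / η) ^ N ∧ Near h m η (pepsN P)

/-- Q2 for the interaction `h` and regions in the box: one translation invariant tensor, with bond
dimension polynomial in `1 / ε`, is `ε`-close on boxes to all translation invariant ground states
of all tori of side at least a polynomial in `1 / ε`. -/
def LocalEff {d q : ℕ} (h : BConf d q → BConf d q → ℂ) : Prop :=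
  ∃ N : ℕ, ∀ ε : ℝ, 0 < ε → ε ≤ 1 → ∃ (D : ℕ) (A : Tensor d D), (D : ℝ) ≤ (2 / ε) ^ N ∧
    ∀ (L : ℕ) [NeZero L], (2 / ε) ^ N ≤ (L : ℝ) → nrm (peps A L) ≠ 0 ∧
      ∀ Ψ : Conf d L → ℂ, IsGround h L Ψ → TransInv Ψ → Close q Ψ (peps A L) ε

/-- The lowest eigenvalue `E` of `H_L` is simple, with the unit eigenvector `Ψ`, and the other eigenvalues
are at least `E + Δ`: every vector orthogonal to `Ψ` has energy at least `(E + Δ) ‖φ‖²`. -/
def GapAt {d q : ℕ} (h : BConf d q → BConf d q → ℂ) (L : ℕ) [NeZero L] (Δ : ℝ) : Prop :=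
  ∃ (Ψ : Conf d L → ℂ) (E : ℝ), nrm Ψ = 1 ∧ (∀ s, ham h L Ψ s = (E : ℂ) * Ψ s) ∧
    ∀ φ : Conf d L → ℂ, ∑ s, conj (Ψ s) * φ s = 0 → (E + Δ) * nrm φ ≤ en h L φ

/-- The gap is stable: for some `Δ, δ > 0` all interactions within `δ` have gap at least `Δ` on all
large tori. -/
def StableGap {d q : ℕ} (X : BConf d q → BConf d q → ℝ) : Prop :=
  ∃ (Δ δ : ℝ) (L₁ : ℕ), 0 < Δ ∧ 0 < δ ∧
    ∀ X' : BConf d q → BConf d q → ℝ, (∀ σ τ, |X' σ τ - X σ τ| ≤ δ) →
      ∀ (L : ℕ) [NeZero L], L₁ ≤ L → GapAt (hermOf X') L Δ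

theorem result (d : ℕ) (hd : 2 ≤ d) (q : ℕ) (hq : 0 < q) :
    ∃ Z : Set (BConf d q → BConf d q → ℝ), MeasureTheory.volume Z = 0 ∧
    ∀ X : BConf d q → BConf d q → ℝ, (StableGap X ∨ X ∉ Z) →
    -- (4) the equivalence
    (EnergyEff (hermOf X) ↔ LocalEff (hermOf X)) ∧
    ∃ C : ℝ, 1 ≤ C ∧
    -- (1) Lipschitz dependence and rate of convergence
    (∀ δ : ℝ, 0 < δ → δ ≤ 1 → ∀ X₁ X₂ : BConf d q → BConf d q → ℝ,
      (∀ σ τ, |X₁ σ τ - X σ τ| ≤ δ) → (∀ σ τ, |X₂ σ τ - X σ τ| ≤ δ) →
      ∀ (L L' : ℕ) [NeZero L] [NeZero L'], C / δ ^ 2 ≤ (L : ℝ) → C / δ ^ 2 ≤ (L' : ℝ) →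
      ∀ (Ψ : Conf d L → ℂ) (Ψ' : Conf d L' → ℂ), TransInv Ψ → TransInv Ψ' →
      Near (hermOf X₁) L (δ ^ 2) Ψ → Near (hermOf X₂) L' (δ ^ 2) Ψ' → Close q Ψ Ψ' (C * δ)) ∧
    -- (2) energy suffices
    (∀ ε : ℝ, 0 < ε → ε ≤ 1 → ∀ (m f : ℕ) [NeZero m], (C / ε) ^ 2 ≤ (m : ℝ) →
      ∀ (P : Site m → Tensor d f) (X₁ : BConf d q → BConf d q → ℝ),
      (∀ σ τ, |X₁ σ τ - X σ τ| ≤ ε / C) → Near (hermOf X₁) m ((ε / C) ^ 2) (pepsN P) →
      ∃ (D : ℕ) (A : Tensor d D), (D : ℝ) ≤ C * (m / ε) ^ 2 * (f : ℝ) ^ 4 ∧
        ∀ (L : ℕ) [NeZero L], C * (m / ε) ^ 2 ≤ (L : ℝ) → nrm (peps A L) ≠ 0 ∧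
          ∀ X' : BConf d q → BConf d q → ℝ, (∀ σ τ, |X' σ τ - X σ τ| ≤ ε / C) →
          ∀ Ψ : Conf d L → ℂ, TransInv Ψ → Near (hermOf X') L ((ε / C) ^ 2) Ψ →
            Close q Ψ (peps A L) ε) ∧
    -- (3) unconditionally
    (∀ ε : ℝ, 0 < ε → ε ≤ 1 → ∃ (D : ℕ) (A : Tensor d D), (D : ℝ) ≤ Real.exp (C / ε) ∧
      ∀ (L : ℕ) [NeZero L], (C / ε) ^ 4 ≤ (L : ℝ) → nrm (peps A L) ≠ 0 ∧
        ∀ X' : BConf d q → BConf d q → ℝ, (∀ σ τ, |X' σ τ - X σ τ| ≤ ε / C) →
        ∀ Ψ : Conf d L → ℂ, TransInv Ψ → Near (hermOf X') L ((ε / C) ^ 2) Ψ →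
          Close q Ψ (peps A L) ε) := by
  refine ⟨{X | ¬ Pool.Agent.Zk71.AX.GenA d q X},
    MeasureTheory.ae_iff.1 (Pool.Agent.Zk71.AX.ae_genA d q hd hq), ?_⟩
  intro X hXZ
  have hX : Pool.Agent.Zk71.AX.GenA d q X := by
    rcases hXZ with h | h
    · exact Pool.Agent.Zk71.ST.stable_genA hd hq X h
    · by_contra hne
      exact h hne
  exact Pool.Agent.Zk71.AX.final hd hq X hX

end Pool.Agent.Results.MP_0f69bf_mp.EnergyCriterion
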