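import Pool.Agent.Zk71.PE.Fin

/-!
# Polynomial bond dimension for Hamiltonians with few eigenvalues of low energy

Let `h` be a Hermitian interaction on `q × q` boxes, local dimension `d ≥ 2`, with the Hamiltonians
`H_m` on the `m × m` tori and `E_0(m)` the smallest eigenvalue. Suppose that there are `a, c ≥ 0` and
`θ > 0` such that for all large `m` and all `M = 0, 1, 2, ...` at most

  `exp (a m^(2 - θ)) m^(c (M + 1))`

eigenvalues of `H_m` (with multiplicity) are at most `E_0(m) + M`. For `a = 0` this is the hypothesis,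
in uniform form, named in the problem file, under which the global approximation with bond
dimension `exp (O (log² L))` is known; the factor `exp (a m^(2 - θ))` allows for instance ground state
degeneracies exponential in the boundary, `exp (a m)`. No gap, uniqueness or absence of frustration
is assumed. Then Q2 has a positive answer: for every finite region `R` there is `N` such that for
`0 < ε ≤ 1`
(i) for every translation invariant ground state `Ψ` of every large torus ONE translation invariant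
tensor of bond dimension at most `(2 / ε)^N` has nonzero PEPS vectors on ALL tori of side at least
`(2 / ε)^N`, and its reduced density matrices on `R` are `ε`-close in trace norm to the one of `Ψ`
there; no convergence as `L → ∞` is assumed;
(ii) if the reduced density matrices on `R` of the ground states converge as `L → ∞` (at any rate), one
such tensor serves all large tori.

Proof. As in ThermodynamicGap: `exp (-(β H_m + t K) / 2)` is ONE truncated cluster expansion of bond
dimension `exp (O (β + t + log m))`, with `K` the sum of the translates of an observable on `R`, and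
one of its columns has the right `K`-energy by the Gibbs variational inequality, if
`log Z_m(β) ≤ κ m²` and `t = 2 (1 + κ / ε)`. Here `m` is a power of `1 / ε`, `β = c log m + 1`, and
`Z_m(β) ≤ 2 exp (a m^(2 - θ)) m^(2 c)`, so that `κ / ε` is bounded.
-/

set_option autoImplicit false

open scoped BigOperators ComplexConjugate Classical

noncomputable section

namespace Pool.Agent.Results.MP_0f69bf_mp.FewLowEigenvalues

/-- Sites of the `L × L` torus. -/
abbrev Site (L : ℕ) := ZMod L × ZMod L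

/-- Configurations (basis states) of the torus with local dimension `d`; vectors are functions
`Conf d L → ℂ`. -/
abbrev Conf (d L : ℕ) := Site L → Fin d

/-- Configurations of a `q × q` box. -/
abbrev BConf (d q : ℕ) := Fin q × Fin q → Fin d

/-- Squared norm of a vector. -/
def nrm {S : Type} [Fintype S] (f : S → ℂ) : ℝ := ∑ s, ‖f s‖ ^ 2

/-- The matrix `B` has operator norm at most `1`. -/
def Contr {S : Type} [Fintype S] (B : S → S → ℂ) : Prop :=
  ∀ f : S → ℂ, nrm (fun σ => ∑ τ, B σ τ * f τ) ≤ nrm f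

/-- The restriction of `s` to the `q × q` box with corner `v`. -/
def box {d L : ℕ} (q : ℕ) (s : Conf d L) (v : Site L) : BConf d q :=
  fun p => s (v.1 + ((p.1 : ℕ) : ZMod L), v.2 + ((p.2 : ℕ) : ZMod L))

/-- The configuration `s` with its content on the `q × q` box with corner `v` replaced by `τ`. -/
def put {d L q : ℕ} (s : Conf d L) (v : Site L) (τ : BConf d q) : Conf d L :=
  fun w => if h : (w.1 - v.1).val < q ∧ (w.2 - v.2).val < q then
    τ (⟨(w.1 - v.1).val, h.1⟩, ⟨(w.2 - v.2).val, h.2⟩) else s w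

/-- The restriction of `s` to the translate by `v` of the region `R ⊂ ℤ²`. -/
def res {d L : ℕ} (R : Finset (ℤ × ℤ)) (s : Conf d L) (v : Site L) : R → Fin d :=
  fun p => s (v.1 + ((p : ℤ × ℤ).1 : ZMod L), v.2 + ((p : ℤ × ℤ).2 : ZMod L))

/-- `⟨Ψ, B_v Ψ⟩`, the matrix `B` acting on the translate by `v` of the region `R`: the sum of
`conj (Ψ s) * B (s on v + R) (s' on v + R) * Ψ s'` over all pairs `s`, `s'` which agree off
`v + R`. -/
def expecR {d L : ℕ} [NeZero L] (R : Finset (ℤ × ℤ)) (Ψ : Conf d L → ℂ) (v : Site L)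
    (B : (R → Fin d) → (R → Fin d) → ℂ) : ℂ :=
  ∑ s : Conf d L, ∑ s' : Conf d L,
    if (∀ w : Site L, (∀ p ∈ R, w ≠ (v.1 + (p.1 : ZMod L), v.2 + (p.2 : ZMod L))) → s w = s' w)
    then conj (Ψ s) * B (res R s v) (res R s' v) * Ψ s' else 0

/-- The reduced density matrices on `R` of the normalised vectors `Ψ`, `Ψ'` (on two possibly
different tori, at any positions) have trace distance at most `ε`: the expectations of all
matrices of norm at most `1` differ by at most `ε`. -/
def Close {d L L' : ℕ} [NeZero L] [NeZero L'] (R : Finset (ℤ × ℤ)) (Ψ : Conf d L → ℂ)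
    (Ψ' : Conf d L' → ℂ) (ε : ℝ) : Prop :=
  ∀ (u : Site L) (v : Site L') (B : (R → Fin d) → (R → Fin d) → ℂ), Contr B →
    ‖expecR R Ψ u B / (nrm Ψ : ℂ) - expecR R Ψ' v B / (nrm Ψ' : ℂ)‖ ≤ ε

/-- A PEPS tensor with physical dimension `d` and bond dimension `D`; indices: physical, left,
right, down, up. -/
abbrev Tensor (d D : ℕ) := Fin d → Fin D → Fin D → Fin D → Fin D → ℂ

/-- The translation invariant PEPS vector of the tensor `A` on the `L × L` torus. -/
def peps {d D : ℕ} (A : Tensor d D) (L : ℕ) [NeZero L] : Conf d L → ℂ :=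
  fun s => ∑ hor : Site L → Fin D, ∑ ver : Site L → Fin D,
    ∏ v : Site L, A (s v) (hor (v.1 - 1, v.2)) (hor v) (ver (v.1, v.2 - 1)) (ver v)

/-- The vector `Ψ` is translation invariant up to scalars. -/
def TransInv {d L : ℕ} (Ψ : Conf d L → ℂ) : Prop :=
  ∀ a : Site L, ∃ c : ℂ, ∀ s : Conf d L, Ψ (fun w => s (w + a)) = c * Ψ s

/-- The Hamiltonian `H_L = ∑_v τ_v(h)` of an interaction `h` on `q × q` boxes. -/
def ham {d q : ℕ} (h : BConf d q → BConf d q → ℂ) (L : ℕ) [NeZero L] (Ψ : Conf d L → ℂ) :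
    Conf d L → ℂ :=
  fun s => ∑ v : Site L, ∑ τ : BConf d q, h (box q s v) τ * Ψ (put s v τ)

/-- The energy `⟨φ, H_L φ⟩`. -/
def en {d q : ℕ} (h : BConf d q → BConf d q → ℂ) (L : ℕ) [NeZero L] (φ : Conf d L → ℂ) : ℝ :=
  (∑ s, conj (φ s) * ham h L φ s).re

/-- `Ψ` is a normalised ground state of `H_L`: it minimises the energy. -/
def IsGround {d q : ℕ} (h : BConf d q → BConf d q → ℂ) (L : ℕ) [NeZero L] (Ψ : Conf d L → ℂ) :
    Prop :=
  nrm Ψ = 1 ∧ ∀ φ : Conf d L → ℂ, nrm φ = 1 → en h L Ψ ≤ en h L φ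

/-- The matrix of `H_L` in the basis of configurations. -/
def hamM {d q : ℕ} (h : BConf d q → BConf d q → ℂ) (L : ℕ) [NeZero L] :
    Matrix (Conf d L) (Conf d L) ℂ :=
  Matrix.of fun s t => ham h L (fun s' => if s' = t then 1 else 0) s

/-- The smallest eigenvalue `E_0(L)` of `H_L`. -/
def gs {d q : ℕ} (h : BConf d q → BConf d q → ℂ) (L : ℕ) [NeZero L] : ℝ :=
  if hH : (hamM h L).IsHermitian then ⨅ i, hH.eigenvalues i else 0

/-- The number of eigenvalues of `H_L` (with multiplicity) that are at most `E_0(L) + M`. -/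
def cnt {d q : ℕ} (h : BConf d q → BConf d q → ℂ) (L : ℕ) [NeZero L] (M : ℕ) : ℕ :=
  if hH : (hamM h L).IsHermitian then
    (Finset.univ.filter fun i => hH.eigenvalues i ≤ gs h L + M).card else 0

/-- The reduced density matrices on `R` of the family `Ψ` form a Cauchy sequence. -/
def Conv {d : ℕ} (R : Finset (ℤ × ℤ)) (Ψ : ∀ L : ℕ, Conf d L → ℂ) : Prop :=
  ∀ δ : ℝ, 0 < δ → ∃ L₂ : ℕ, ∀ (L L' : ℕ) [NeZero L] [NeZero L'], L₂ ≤ L → L₂ ≤ L' →
    Close R (Ψ L) (Ψ L') δ

theorem result (d : ℕ) (hd : 2 ≤ d) (q : ℕ) (hq : 0 < q) (h : BConf d q → BConf d q → ℂ)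
    (hh : ∀ σ τ, h σ τ = conj (h τ σ)) (a c θ : ℝ) (ha : 0 ≤ a) (hc : 0 ≤ c) (hθ : 0 < θ)
    (hfew : ∃ m₀ : ℕ, ∀ (m : ℕ) [NeZero m], m₀ ≤ m → ∀ M : ℕ,
      (cnt h m M : ℝ) ≤ Real.exp (a * (m : ℝ) ^ (2 - θ)) * (m : ℝ) ^ (c * (M + 1)))
    (R : Finset (ℤ × ℤ)) :
    ∃ N : ℕ,
    -- (i) every ground state of every large torus
    (∀ ε : ℝ, 0 < ε → ε ≤ 1 →
      ∃ L₀ : ℕ, ∀ (L : ℕ) [NeZero L], L₀ ≤ L → ∀ Ψ : Conf d L → ℂ,
        IsGround h L Ψ → TransInv Ψ →
        ∃ (D : ℕ) (A : Tensor d D), (D : ℝ) ≤ (2 / ε) ^ N ∧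
          ∀ (L' : ℕ) [NeZero L'], (2 / ε) ^ N ≤ (L' : ℝ) →
            nrm (peps A L') ≠ 0 ∧ Close R Ψ (peps A L') ε) ∧
    -- (ii) families
    (∀ Ψ : ∀ L : ℕ, Conf d L → ℂ,
      (∃ L₁ : ℕ, ∀ (L : ℕ) [NeZero L], L₁ ≤ L → IsGround h L (Ψ L) ∧ TransInv (Ψ L)) →
      Conv R Ψ → ∀ ε : ℝ, 0 < ε → ε ≤ 1 → ∃ (D : ℕ) (A : Tensor d D),
        (D : ℝ) ≤ (2 / ε) ^ N ∧ ∃ L₃ : ℕ, ∀ (L : ℕ) [NeZero L], L₃ ≤ L →
          nrm (peps A L) ≠ 0 ∧ Close R (Ψ L) (peps A L) ε) := by
  obtain ⟨R', rfl⟩ : ∃ R' : ℕ, q = R' + 1 := ⟨q - 1, by omega⟩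
  obtain ⟨h', hh'⟩ : ∃ h' : Pool.Agent.TH235.PP.BoxOp d (R' + 1), h' = Matrix.of h := ⟨_, rfl⟩
  have hher : h'.IsHermitian := by
    rw [hh']
    ext σ τ
    rw [Matrix.conjTranspose_apply]
    exact (hh σ τ).symm
  have H := Pool.Agent.Zk71.PE.families h' R (Pool.Agent.Zk71.PE.spectral
    Pool.Agent.Zk71.PE.freeG' Pool.Agent.N658.TP.Sp.freeOf' d R' hd h' hher R a c θ ha hc hθ
    (by rw [hh']; exact hfew))
  rw [hh'] at H
  exact H

end Pool.Agent.Results.MP_0f69bf_mp.FewLowEigenvalues
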