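import Pool.Agent.Zk71.AX.LipM
import Pool.Agent.Zk71.AX.Gap
import Pool.Agent.Zk71.ST.Main

/-!
# Q2 for Hamiltonians with a stable gap and for almost every interaction, under a spectral condition

Let `d ≥ 2`, `q ≥ 1`. Interactions are the Hermitian matrices `h` on `q × q` boxes, `H_m = ∑ τ_v(h)` on the
`m × m` torus, parametrised linearly by the real matrices `X`: `h = hermOf X = (X + Xᵀ) + i (X - Xᵀ)`.
Consider the two conditions

* THERMO: `Tr exp (-β (H_m - E_0(m))) ≤ exp (a e^(-c β) m²)` for every `β ≥ 1` and all `m ≥ m₀(β)`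
  (the free energy density is exponentially close to the ground energy density as `T → 0`);
* FEW: for all large `m` and all `M = 0, 1, 2, …` at most `exp (a m^(2-θ)) m^(c (M+1))` eigenvalues of
  `H_m`, with multiplicity, are at most `E_0(m) + M` (for `a = 0` the uniform form of the spectral
  assumption under which the problem file quotes the global bound `exp (O (log² L))`).

The gap of `hermOf X` is STABLE if for some `Δ, δ > 0` and all interactions whose parameters are within `δ`
of `X` and all large `L` the lowest eigenvalue of `H_L` is simple and the others are larger by at least `Δ`.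

THEOREM. Let `X` have a stable gap, or let `X` lie outside a certain Lebesgue null set. If `hermOf X`
satisfies THERMO or FEW, then for every region `R` in the `q × q` box there is `N` such that for every
`0 < ε ≤ 1` ONE translation invariant tensor of bond dimension at most `(2/ε)^N` has nonzero PEPS vectors
on ALL tori of side at least `(2/ε)^N` and their reduced density matrices on `R` are `ε`-close to those of
ALL translation invariant ground states of `hermOf X` there, and even of all translation invariant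
vectors with energy per site within `(ε/2)^N` of the ground energy per site of any interaction
within `(ε/2)^N` of `X`.

Larger finite regions are covered by regarding `h` as an interaction on larger boxes, if the gap is
stable against perturbations on these boxes too. The convergence of the reduced density matrices is
proved (with a rate), not assumed; for almost every `X` no gap and no uniqueness of ground states is
needed. In ThermodynamicGap and FewLowEigenvalues
(hand-ins for every interaction and every region) the tensor depends on the ground state, or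
convergence is assumed and the sizes are not controlled.

Proof. For one ground state on one huge torus the tensor is the one of ThermodynamicGap and
FewLowEigenvalues. It serves all sizes because all translation invariant vectors near the ground
energy, up to `δ²`, of interactions within `δ`, on tori of side at least `C / δ²`, have reduced density
matrices within `C δ` of each other. This follows from a bound `K t²` for the second differences of the
ground energy density in the direction of a perturbation `V = ∑ τ_v(u)`. Almost everywhere it is the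
theorem of EnergyCriterion. For a stable gap: in a ground state `Ψ` with gap `Δ` the variance of `V` is
at most `⟨[V, [H, V]]⟩ / (2 Δ) = O(L²)`, so the ground energy `E(s)` of `H + s V` satisfies
`E(s) ≥ E(0) + s ⟨V⟩ - O(L²) s²` for `|s| ≤ c / L²`; if this holds at all points of an interval,
`E(s) + O(L²) s²` is convex there.
-/

set_option autoImplicit false

open scoped BigOperators ComplexConjugate Classical

noncomputable section

namespace Pool.Agent.Results.MP_0f69bf_mp.GenericGap

/-- Sites of the `L × L` torus. -/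
abbrev Site (L : ℕ) := ZMod L × ZMod L

/-- Configurations (basis states) of the torus with local dimension `d`; vectors are functions
`Conf d L → ℂ`. -/
abbrev Conf (d L : ℕ) := Site L → Fin d

/-- Configurations of a `q × q` box. -/
abbrev BConf (d q : ℕ) := Fin q × Fin q → Fin d

/-- Squared norm of a vector. -/
def nrm {S : Type} [Fintype S] (f : S → ℂ) : ℝ := ∑ s, ‖f s‖ ^ 2

/-- The matrix `B` has operator norm at most `1`. -/
def Contr {S : Type} [Fintype S] (B : S → S → ℂ) : Prop :=
  ∀ f : S → ℂ, nrm (fun σ => ∑ τ, B σ τ * f τ) ≤ nrm f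

/-- The restriction of `s` to the `q × q` box with corner `v`. -/
def box {d L : ℕ} (q : ℕ) (s : Conf d L) (v : Site L) : BConf d q :=
  fun p => s (v.1 + ((p.1 : ℕ) : ZMod L), v.2 + ((p.2 : ℕ) : ZMod L))

/-- The configuration `s` with its content on the `q × q` box with corner `v` replaced by `τ`. -/
def put {d L q : ℕ} (s : Conf d L) (v : Site L) (τ : BConf d q) : Conf d L :=
  fun w => if h : (w.1 - v.1).val < q ∧ (w.2 - v.2).val < q then
    τ (⟨(w.1 - v.1).val, h.1⟩, ⟨(w.2 - v.2).val, h.2⟩) else s w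

/-- The restriction of `s` to the translate by `v` of the region `R ⊂ ℤ²`. -/
def res {d L : ℕ} (R : Finset (ℤ × ℤ)) (s : Conf d L) (v : Site L) : R → Fin d :=
  fun p => s (v.1 + ((p : ℤ × ℤ).1 : ZMod L), v.2 + ((p : ℤ × ℤ).2 : ZMod L))

/-- `⟨Ψ, B_v Ψ⟩`, the matrix `B` acting on the translate by `v` of the region `R`: the sum of
`conj (Ψ s) * B (s on v + R) (s' on v + R) * Ψ s'` over all pairs `s`, `s'` which agree off
`v + R`. -/
def expecR {d L : ℕ} [NeZero L] (R : Finset (ℤ × ℤ)) (Ψ : Conf d L → ℂ) (v : Site L)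
    (B : (R → Fin d) → (R → Fin d) → ℂ) : ℂ :=
  ∑ s : Conf d L, ∑ s' : Conf d L,
    if (∀ w : Site L, (∀ p ∈ R, w ≠ (v.1 + (p.1 : ZMod L), v.2 + (p.2 : ZMod L))) → s w = s' w)
    then conj (Ψ s) * B (res R s v) (res R s' v) * Ψ s' else 0

/-- The reduced density matrices on `R` of the normalised vectors `Ψ`, `Ψ'` (on two possibly
different tori, at any positions) have trace distance at most `ε`: the expectations of all
matrices of norm at most `1` differ by at most `ε`. -/
def Close {d L L' : ℕ} [NeZero L] [NeZero L'] (R : Finset (ℤ × ℤ)) (Ψ : Conf d L → ℂ)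
    (Ψ' : Conf d L' → ℂ) (ε : ℝ) : Prop :=
  ∀ (u : Site L) (v : Site L') (B : (R → Fin d) → (R → Fin d) → ℂ), Contr B →
    ‖expecR R Ψ u B / (nrm Ψ : ℂ) - expecR R Ψ' v B / (nrm Ψ' : ℂ)‖ ≤ ε

/-- A PEPS tensor with physical dimension `d` and bond dimension `D`; indices: physical, left,
right, down, up. -/
abbrev Tensor (d D : ℕ) := Fin d → Fin D → Fin D → Fin D → Fin D → ℂ

/-- The translation invariant PEPS vector of the tensor `A` on the `L × L` torus. -/
def peps {d D : ℕ} (A : Tensor d D) (L : ℕ) [NeZero L] : Conf d L → ℂ :=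
  fun s => ∑ hor : Site L → Fin D, ∑ ver : Site L → Fin D,
    ∏ v : Site L, A (s v) (hor (v.1 - 1, v.2)) (hor v) (ver (v.1, v.2 - 1)) (ver v)

/-- The vector `Ψ` is translation invariant up to scalars. -/
def TransInv {d L : ℕ} (Ψ : Conf d L → ℂ) : Prop :=
  ∀ a : Site L, ∃ c : ℂ, ∀ s : Conf d L, Ψ (fun w => s (w + a)) = c * Ψ s

/-- The Hamiltonian `H_L = ∑_v τ_v(h)` of an interaction `h` on `q × q` boxes. -/
def ham {d q : ℕ} (h : BConf d q → BConf d q → ℂ) (L : ℕ) [NeZero L] (Ψ : Conf d L → ℂ) :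
    Conf d L → ℂ :=
  fun s => ∑ v : Site L, ∑ τ : BConf d q, h (box q s v) τ * Ψ (put s v τ)

/-- The energy `⟨φ, H_L φ⟩`. -/
def en {d q : ℕ} (h : BConf d q → BConf d q → ℂ) (L : ℕ) [NeZero L] (φ : Conf d L → ℂ) : ℝ :=
  (∑ s, conj (φ s) * ham h L φ s).re

/-- `Ψ` is a normalised ground state of `H_L`: it minimises the energy. -/
def IsGround {d q : ℕ} (h : BConf d q → BConf d q → ℂ) (L : ℕ) [NeZero L] (Ψ : Conf d L → ℂ) :
    Prop :=
  nrm Ψ = 1 ∧ ∀ φ : Conf d L → ℂ, nrm φ = 1 → en h L Ψ ≤ en h L φ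

/-- The matrix of `H_L` in the basis of configurations. -/
def hamM {d q : ℕ} (h : BConf d q → BConf d q → ℂ) (L : ℕ) [NeZero L] :
    Matrix (Conf d L) (Conf d L) ℂ :=
  Matrix.of fun s t => ham h L (fun s' => if s' = t then 1 else 0) s

/-- The smallest eigenvalue `E_0(L)` of `H_L`. -/
def gs {d q : ℕ} (h : BConf d q → BConf d q → ℂ) (L : ℕ) [NeZero L] : ℝ :=
  if hH : (hamM h L).IsHermitian then ⨅ i, hH.eigenvalues i else 0

/-- The partition function `Tr exp (-β (H_L - E_0(L)))`, the sum over the eigenvalues of `H_L` with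
multiplicity. -/
def part {d q : ℕ} (h : BConf d q → BConf d q → ℂ) (L : ℕ) [NeZero L] (β : ℝ) : ℝ :=
  if hH : (hamM h L).IsHermitian then ∑ i, Real.exp (-(β * (hH.eigenvalues i - gs h L))) else 0

/-- The number of eigenvalues of `H_L` (with multiplicity) that are at most `E_0(L) + M`. -/
def cnt {d q : ℕ} (h : BConf d q → BConf d q → ℂ) (L : ℕ) [NeZero L] (M : ℕ) : ℕ :=
  if hH : (hamM h L).IsHermitian then
    (Finset.univ.filter fun i => hH.eigenvalues i ≤ gs h L + M).card else 0

/-- The Hermitian matrix `(X + Xᵀ) + i (X - Xᵀ)` of a real matrix `X`; a linear bijection between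
the real square matrices and the Hermitian matrices. -/
def hermOf {d q : ℕ} (X : BConf d q → BConf d q → ℝ) : BConf d q → BConf d q → ℂ :=
  fun σ τ => ((X σ τ + X τ σ : ℝ) : ℂ) + ((X σ τ - X τ σ : ℝ) : ℂ) * Complex.I

/-- `Ψ` is nonzero and its energy per site (after normalisation) exceeds the ground energy per site
by at most `η`. -/
def Near {d q : ℕ} (h : BConf d q → BConf d q → ℂ) (L : ℕ) [NeZero L] (η : ℝ)
    (Ψ : Conf d L → ℂ) : Prop :=
  nrm Ψ ≠ 0 ∧ ∀ φ : Conf d L → ℂ, nrm φ = 1 → en h L Ψ ≤ (en h L φ + η * (L : ℝ) ^ 2) * nrm Ψ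

/-- The region lies inside the `q × q` box `[0, q)²`. -/
def InBox (q : ℕ) (R : Finset (ℤ × ℤ)) : Prop :=
  ∀ p ∈ R, (0 ≤ p.1 ∧ p.1 < (q : ℤ)) ∧ (0 ≤ p.2 ∧ p.2 < (q : ℤ))

/-- A gap in the thermodynamic sense. -/
def Thermo {d q : ℕ} (h : BConf d q → BConf d q → ℂ) : Prop :=
  ∃ a c : ℝ, 0 ≤ a ∧ 0 < c ∧ ∀ β : ℝ, 1 ≤ β → ∃ m₀ : ℕ, ∀ (m : ℕ) [NeZero m], m₀ ≤ m →
    part h m β ≤ Real.exp (a * Real.exp (-(c * β)) * (m : ℝ) ^ 2)

/-- Few low eigenvalues. -/
def Few {d q : ℕ} (h : BConf d q → BConf d q → ℂ) : Prop :=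
  ∃ a c θ : ℝ, 0 ≤ a ∧ 0 ≤ c ∧ 0 < θ ∧ ∃ m₀ : ℕ, ∀ (m : ℕ) [NeZero m], m₀ ≤ m → ∀ M : ℕ,
    (cnt h m M : ℝ) ≤ Real.exp (a * (m : ℝ) ^ (2 - θ)) * (m : ℝ) ^ (c * (M + 1))

/-- The lowest eigenvalue `E` of `H_L` is simple, with the unit eigenvector `Ψ`, and the other eigenvalues
are at least `E + Δ`: every vector orthogonal to `Ψ` has energy at least `(E + Δ) ‖φ‖²`. -/
def GapAt {d q : ℕ} (h : BConf d q → BConf d q → ℂ) (L : ℕ) [NeZero L] (Δ : ℝ) : Prop :=
  ∃ (Ψ : Conf d L → ℂ) (E : ℝ), nrm Ψ = 1 ∧ (∀ s, ham h L Ψ s = (E : ℂ) * Ψ s) ∧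
    ∀ φ : Conf d L → ℂ, ∑ s, conj (Ψ s) * φ s = 0 → (E + Δ) * nrm φ ≤ en h L φ

/-- The gap is stable: for some `Δ, δ > 0` all interactions within `δ` have gap at least `Δ` on all
large tori. -/
def StableGap {d q : ℕ} (X : BConf d q → BConf d q → ℝ) : Prop :=
  ∃ (Δ δ : ℝ) (L₁ : ℕ), 0 < Δ ∧ 0 < δ ∧
    ∀ X' : BConf d q → BConf d q → ℝ, (∀ σ τ, |X' σ τ - X σ τ| ≤ δ) →
      ∀ (L : ℕ) [NeZero L], L₁ ≤ L → GapAt (hermOf X') L Δ

theorem result (d : ℕ) (hd : 2 ≤ d) (q : ℕ) (hq : 0 < q) :
    ∃ Z : Set (BConf d q → BConf d q → ℝ), MeasureTheory.volume Z = 0 ∧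
    ∀ X : BConf d q → BConf d q → ℝ, (StableGap X ∨ X ∉ Z) →
    (Thermo (hermOf X) ∨ Few (hermOf X)) →
    ∀ R : Finset (ℤ × ℤ), InBox q R → ∃ N : ℕ, ∀ ε : ℝ, 0 < ε → ε ≤ 1 →
    ∃ (D : ℕ) (A : Tensor d D), (D : ℝ) ≤ (2 / ε) ^ N ∧
      ∀ (L : ℕ) [NeZero L], (2 / ε) ^ N ≤ (L : ℝ) → nrm (peps A L) ≠ 0 ∧
        (∀ Ψ : Conf d L → ℂ, IsGround (hermOf X) L Ψ → TransInv Ψ → Close R Ψ (peps A L) ε) ∧
        ∀ X' : BConf d q → BConf d q → ℝ, (∀ σ τ, |X' σ τ - X σ τ| ≤ (ε / 2) ^ N) →
          ∀ Ψ : Conf d L → ℂ, TransInv Ψ → Near (hermOf X') L ((ε / 2) ^ N) Ψ →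
            Close R Ψ (peps A L) ε := by
  refine ⟨{X | ¬ Pool.Agent.Zk71.AX.GenL d q X},
    MeasureTheory.ae_iff.1 (Pool.Agent.Zk71.AX.ae_genL d q hd hq), ?_⟩
  intro X hXZ hTF R hR
  have hX : Pool.Agent.Zk71.AX.GenL d q X := by
    rcases hXZ with h | h
    · exact Pool.Agent.Zk71.ST.stable_genL hd hq X h
    · by_contra hne
      exact h hne
  obtain ⟨R', rfl⟩ : ∃ R' : ℕ, q = R' + 1 := ⟨q - 1, by omega⟩
  have H := Pool.Agent.Zk71.AX.gapGen2 hd X hX R hR (by
    rcases hTF with ⟨a, c, ha, hc, h⟩ | ⟨a, c, θ, ha, hc, hθ, h⟩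
    · exact Pool.Agent.Zk71.AX.poly_thermo hd X R a c ha hc h
    · exact Pool.Agent.Zk71.AX.poly_few hd X R a c θ ha hc hθ h)
  exact H

end Pool.Agent.Results.MP_0f69bf_mp.GenericGap
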